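import Pool.Agent.Lib.MP_33b3f9_ag.M4.DetD
import Pool.Agent.Lib.MP_33b3f9_ag.M4.B2.Inert

/-! Points that are fixed by the inertia group. -/

set_option autoImplicit false

noncomputable section

namespace MG.Hb

open Finset Pool.Agent.M4.Det M4.B2

variable {p : ℕ} [Fact p.Prime] {K : IntermediateField ℚ ℂ}

/-- Elements of the inertia group. -/
def Ine (t : PadicAlgCl p ≃ₐ[ℚ_[p]] PadicAlgCl p) : Prop := ∀ x, ‖x‖ ≤ 1 → ‖t x - x‖ < 1

theorem ine_of_fix {t : PadicAlgCl p ≃ₐ[ℚ_[p]] PadicAlgCl p}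
    (ht : ∀ (n : ℕ) (ω : PadicAlgCl p), ¬ p ∣ n → ω ^ n = 1 → t ω = ω) : Ine t := by
  intro x hx
  have htx : ‖t x‖ ≤ 1 := (norm_aut t x).trans_le hx
  rw [← res_eq_iff htx hx]
  rcases hx.lt_or_eq with hx1 | hx1
  · rw [(res_eq_zero hx).2 hx1, (res_eq_zero htx).2 ((norm_aut t x).trans_lt hx1)]
  · obtain ⟨n, ω, hn, hω, e⟩ := exists_root_res hx1
    have hω1 := (norm_root (Nat.pos_of_ne_zero fun h0 : n = 0 => hn (h0 ▸ dvd_zero p)) hω).le
    rw [← e, res_eq_iff htx hω1]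
    conv_lhs => rw [← ht n ω hn hω, ← map_sub, norm_aut]
    exact (res_eq_iff hx hω1).1 e.symm

/-- Inertia fixes the roots of unity of order prime to `p`. -/
theorem Ine.fix {t : PadicAlgCl p ≃ₐ[ℚ_[p]] PadicAlgCl p} (ht : Ine t) {n : ℕ} {ω : PadicAlgCl p}
    (hn : ¬ p ∣ n) (hω : ω ^ n = 1) : t ω = ω := by
  have h1 := (norm_root (Nat.pos_of_ne_zero fun h0 : n = 0 => hn (h0 ▸ dvd_zero p)) hω).le
  exact inert_inj hn (by rw [← map_pow, hω, map_one]) hω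
    ((res_eq_iff ((norm_aut t ω).trans_le h1) h1).2 (ht ω h1))

theorem norm_of_ine {x : PadicAlgCl p} (hx : ∀ t, Ine t → t x = x) : ∃ q : ℚ_[p], ‖x‖ = ‖q‖ := by
  have h1 : x ∈ IntermediateField.adjoin ℚ_[p] {ω : PadicAlgCl p | ∃ n, ¬ p ∣ n ∧ ω ^ n = 1} := by
    rw [← InfiniteGalois.fixedField_fixingSubgroup (IntermediateField.adjoin ℚ_[p] _),
      IntermediateField.mem_fixedField_iff]
    intro t ht
    rw [IntermediateField.mem_fixingSubgroup_iff] at ht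
    exact hx t (ine_of_fix fun n ω hn hω => ht ω (IntermediateField.subset_adjoin _ _ ⟨n, hn, hω⟩))
  obtain ⟨n, ω, hn, hω, h2⟩ := inert_mem h1
  exact norm_mem_adjoin hn hω h2

theorem le_of_ine {e : ℂ ≃+* PadicAlgCl p} (h : IsPlace K e) {z : ℂ}
    (hz : ∀ τ, Ine τ → dec h τ z = z) (h1 : abv e z < 1) : abv e z ≤ (p : ℝ)⁻¹ := by
  obtain ⟨q, hq⟩ := norm_of_ine (x := e z) fun t ht => by rw [← e_dec h, hz t ht]
  rw [abv_apply, hq] at h1 ⊢
  have := (Padic.norm_le_pow_iff_norm_lt_pow_add_one q (-1)).2 (by simpa using h1)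
  simpa using this

/-- Points fixed by the inertia group with at most `h` reductions. -/
theorem fewRed_of_ine {S ι : Type} [Fintype ι] {e : ℂ ≃+* PadicAlgCl p} (he : IsPlace K e)
    {y : S → ι → ℂ} (hi : ∀ s i, IsIntegral ℤ (y s i)) {T : Set S}
    (hT : ∀ s ∈ T, ∀ τ, Ine τ → ∀ i, dec he τ (y s i) = y s i) {h : ℕ} (cl : S → Fin h)
    (hcl : ∀ s ∈ T, ∀ s' ∈ T, cl s = cl s' → SameRed e (y s) (y s')) : FewRed y p h T := by
  have hw := abv_na e
  have key : ∀ c : Fin h, ∃ ref : ι → ℂ, (∀ i, abv e (ref i) ≤ 1) ∧ ∀ s ∈ T, cl s = c →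
      ∃ c : ℂ, abv e c ≤ 1 ∧ ∀ i, abv e (y s i - c * ref i) ≤ (p : ℝ)⁻¹ := fun c => by
    by_cases hc : ∃ s ∈ T, cl s = c
    swap
    · exact ⟨0, by simp, fun s hs h => absurd ⟨s, hs, h⟩ hc⟩
    obtain ⟨s0, hs0, rfl⟩ := hc
    obtain ⟨-, c0, -, ⟨i1, hi1⟩, -⟩ := hcl s0 hs0 s0 hs0 rfl
    obtain ⟨i0, -, hi0⟩ := exists_max_image univ (fun i => abv e (y s0 i)) ⟨i1, mem_univ _⟩
    have h0 : y s0 i0 ≠ 0 := fun h => by
      have h1 := hi0 i1 (mem_univ _)
      rw [h, map_zero] at h1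
      rw [(abv e).eq_zero.1 (le_antisymm h1 ((abv e).nonneg _))] at hi1
      simp at hi1
    have hr : ∀ i, abv e (y s0 i / y s0 i0) ≤ 1 := fun i => by
      rw [map_div₀]
      exact div_le_one_of_le₀ (hi0 i (mem_univ _)) ((abv e).nonneg _)
    refine ⟨fun i => y s0 i / y s0 i0, hr, fun s hs hc =>
      ⟨y s i0, integral_le hw (hi _ _), fun i => ?_⟩⟩
    obtain ⟨c, c', h1, ⟨j, hj⟩, h2⟩ := hcl s hs s0 hs0 hc
    simp only [← abv_apply] at h1 hj h2
    have h3 : abv e (c' * y s0 i0) = 1 := le_antisymm (h1 _) (by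
      rw [← hj, map_mul, map_mul]
      exact mul_le_mul_of_nonneg_left (hi0 j (mem_univ _)) ((abv e).nonneg _))
    have h4 : 1 ≤ abv e (c * y s i0) := not_lt.1 fun hlt => by
      have := hw (c * y s i0) (-(c * y s i0 - c' * y s0 i0))
      rw [AbsoluteValue.map_neg, neg_sub, add_sub_cancel, h3] at this
      exact absurd this (not_le.2 (max_lt hlt (h2 _)))
    have h5 : 1 ≤ abv e c := h4.trans (by
      rw [map_mul]; exact mul_le_of_le_one_right ((abv e).nonneg _) (integral_le hw (hi _ _)))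
    refine le_of_ine he (fun τ hτ => by
      rw [map_sub, map_mul, map_div₀, hT s hs τ hτ, hT s hs τ hτ, hT s0 hs0 τ hτ,
        hT s0 hs0 τ hτ]) ?_
    have e1 : c * (y s i - y s i0 * (y s0 i / y s0 i0)) = (c * y s i - c' * y s0 i) +
        -((c * y s i0 - c' * y s0 i0) * (y s0 i / y s0 i0)) := by field_simp; ring
    have h6 := hw (c * y s i - c' * y s0 i) (-((c * y s i0 - c' * y s0 i0) * (y s0 i / y s0 i0)))
    rw [← e1, map_mul, AbsoluteValue.map_neg, map_mul] at h6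
    refine (le_mul_of_one_le_left ((abv e).nonneg _) h5).trans_lt (h6.trans_lt (max_lt (h2 _) ?_))
    exact (mul_le_of_le_one_right ((abv e).nonneg _) (hr i)).trans_lt (h2 _)
  choose ref h1 h2 using key
  exact ⟨abv e, hw, abv_p e, cl, ref, h1, fun s hs => h2 _ s hs rfl⟩

/-- The same with an invariant in a finite set. -/
theorem fewRed_of_inv {S ι Λ : Type} [Fintype ι] {e : ℂ ≃+* PadicAlgCl p} (he : IsPlace K e)
    {y : S → ι → ℂ} (hi : ∀ s i, IsIntegral ℤ (y s i)) {T : Set S}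
    (hT : ∀ s ∈ T, ∀ τ, Ine τ → ∀ i, dec he τ (y s i) = y s i) (I : Finset Λ) (cl : S → Λ)
    (hI : ∀ s ∈ T, cl s ∈ I)
    (hcl : ∀ s ∈ T, ∀ s' ∈ T, cl s = cl s' → SameRed e (y s) (y s')) :
    FewRed y p (I.card + 1) T := by
  classical
  refine fewRed_of_ine he hi hT
    (fun s => if h : cl s ∈ I then (I.equivFin ⟨cl s, h⟩).castSucc else Fin.last _)
    fun s hs s' hs' h => hcl s hs s' hs' ?_
  rw [dif_pos (hI s hs), dif_pos (hI s' hs')] at h
  exact congrArg Subtype.val (I.equivFin.injective (Fin.castSucc_injective _ h))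

end MG.Hb
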