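import Pool.Agent.Lib.MP_33b3f9_ag.M4.DetC

/-! The determinant method in average form. -/

set_option autoImplicit false

noncomputable section

namespace MG.Hb

open Finset Pool.Agent.M4.Det

section dens

variable {G S : Type} [Group G] [Fintype S]

open Classical in
/-- The share of the group that moves `x` into `T`. -/
def dens (a : G →* Equiv.Perm S) (x : S) (T : Set S) : ℝ :=
  ((univ.filter fun g : a.range => g • x ∈ T).card : ℝ) / Fintype.card a.range

theorem dens_nonneg (a : G →* Equiv.Perm S) (x : S) (T : Set S) : 0 ≤ dens a x T := by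
  unfold dens
  positivity

theorem dens_mono (a : G →* Equiv.Perm S) (x : S) {T T' : Set S} (h : ∀ σ, a σ x ∈ T → a σ x ∈ T') :
    dens a x T ≤ dens a x T' := by
  classical
  unfold dens
  refine div_le_div_of_nonneg_right (Nat.cast_le.2 (card_le_card fun g hg => ?_))
    (Nat.cast_nonneg _)
  obtain ⟨_, σ, rfl⟩ := g
  exact mem_filter.2 ⟨mem_univ _, h σ (mem_filter.1 hg).2⟩

/-- The share is read off on the image of the orbit under a map that respects the action. -/
theorem dens_comap (a : G →* Equiv.Perm S) {S' : Type} (π : S → S')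
    (hπ : ∀ σ s s', π s = π s' → π (a σ s) = π (a σ s')) (x : S) (T : Set S') :
    dens a x (π ⁻¹' T) = (((Set.range fun σ => π (a σ x)) ∩ T).ncard : ℝ) /
      (Set.range fun σ => π (a σ x)).ncard := by
  classical
  let f : a.range → S' := fun g => π (g • x)
  have h1 : ∀ g g' : a.range, (univ.filter fun u => f u = f g).card ≤
      (univ.filter fun u => f u = f g').card := fun g g' => by
    refine card_le_card_of_injOn (fun u => g' * g⁻¹ * u) (fun u hu => ?_)
      fun u _ u' _ e => mul_left_cancel e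
    obtain ⟨σ, hσ⟩ := (g' * g⁻¹).2
    have h2 := hπ σ _ _ (mem_filter.1 (mem_coe.1 hu)).2
    rw [hσ] at h2
    refine mem_coe.2 (mem_filter.2 ⟨mem_univ _, ?_⟩)
    change π ((g' * g⁻¹ * u) • x) = π (g' • x)
    rw [mul_smul, show g' • x = (g' * g⁻¹) • g • x by rw [← mul_smul, inv_mul_cancel_right]]
    exact h2
  have h2 : ∀ U : Set S', (univ.filter fun g => f g ∈ U).card =
      (Set.range f ∩ U).ncard * (univ.filter fun u => f u = f 1).card := fun U => by
    have e : Set.range f ∩ U = ((univ.filter fun g => f g ∈ U).image f : Finset S') := by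
      ext z
      simp only [Set.mem_inter_iff, Set.mem_range, coe_image, coe_filter, mem_univ, true_and,
        Set.mem_image, Set.mem_ofPred_eq]
      exact ⟨fun ⟨⟨g, hg⟩, hz⟩ => ⟨g, hg ▸ hz, hg⟩, fun ⟨g, hg, hz⟩ => ⟨⟨g, hz⟩, hz ▸ hg⟩⟩
    rw [e, Set.ncard_coe_finset, card_eq_sum_card_image f, ← smul_eq_mul, ← sum_const]
    refine sum_congr rfl fun z hz => ?_
    obtain ⟨g, hg, rfl⟩ := mem_image.1 hz
    rw [← le_antisymm (h1 g 1) (h1 1 g), filter_filter]
    congr 1
    exact filter_congr fun u _ => ⟨fun h => h.2, fun h => ⟨h ▸ (mem_filter.1 hg).2, h⟩⟩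
  have e : (Set.range fun σ => π (a σ x)) = Set.range f :=
    Set.ext fun z => ⟨fun ⟨σ, h⟩ => ⟨⟨_, σ, rfl⟩, h⟩, fun ⟨⟨_, σ, rfl⟩, h⟩ => ⟨σ, h⟩⟩
  have h3 := h2 Set.univ
  simp only [Set.mem_univ, filter_true, card_univ, Set.inter_univ] at h3
  have h4 : (0 : ℝ) < (univ.filter fun u => f u = f 1).card :=
    Nat.cast_pos.2 (card_pos.2 ⟨1, mem_filter.2 ⟨mem_univ _, rfl⟩⟩)
  have h5 : dens a x (π ⁻¹' T) = ((univ.filter fun g => f g ∈ T).card : ℝ) /
      Fintype.card a.range := by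
    unfold dens
    congr
  rw [h5, e, h2 T, h3, Nat.cast_mul, Nat.cast_mul, mul_div_mul_right _ _ h4.ne']

theorem dens_orbit (a : G →* Equiv.Perm S) (x : S) (T : Set S) :
    dens a x T = (((Set.range fun σ => a σ x) ∩ T).ncard : ℝ) / (Set.range fun σ => a σ x).ncard :=
  dens_comap a id (fun σ _ _ h => congrArg (a σ) h) x T

end dens

variable {S ι : Type} [Fintype ι]

omit [Fintype ι] in
theorem fewRed_mono {y : S → ι → ℂ} {p h h' : ℕ} {T T' : Set S} (H : FewRed y p h T)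
    (hh : h ≤ h') (hT : T' ⊆ T) : FewRed y p h' T' := by
  obtain ⟨w, hw, hwp, cl, ref, href, H⟩ := H
  refine ⟨w, hw, hwp, fun s => Fin.castLE hh (cl s),
    fun c => if hc : (c : ℕ) < h then ref ⟨c, hc⟩ else 0, fun c i => ?_, fun s hs => ?_⟩
  · dsimp only
    split_ifs with hc
    · exact href _ _
    · simp
  · simpa using H s (hT hs)

open Classical in
/-- The determinant method on a set `X` of rows, in average form. -/
theorem hilb2 [Fintype S] (K : IntermediateField ℚ ℂ) [FiniteDimensional ℚ K]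
    (a : (ℂ ≃ₐ[K] ℂ) →* Equiv.Perm S) (y : S → ι → ℂ) (hy : ∀ σ s i, σ (y s i) = y (a σ s) i)
    (hi : ∀ s i, IsIntegral ℤ (y s i)) {B : ℝ} (hB1 : 1 ≤ B)
    (hB : ∀ (φ : ℂ →+* ℂ) s i, ‖φ (y s i)‖ ≤ B) (PP : Finset ℕ) {P : ℝ} (hP : 1 < P)
    (hPP : ∀ p ∈ PP, p.Prime ∧ P ≤ p) {h : ℕ} (St : ℕ → Set S)
    (hSt : ∀ p ∈ PP, FewRed y p h (St p)) (X : Finset S) {W : ℝ}
    (hW : ∀ x ∈ X, W ≤ ∑ p ∈ PP, dens a x (St p)) (k : ℕ)
    (hk : 2 * Module.finrank ℚ K * (Real.log (Fintype.card S) + k * Real.log B) ≤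
      W * Real.log P) : hil (fun s : X => y s) k * W ≤ 2 * h * PP.card := by
  obtain ⟨R, hR0, m, s0, hΔ⟩ : ∃ R, hil (fun s : X => y s) k = R ∧
      ∃ (m : Fin R → {m : ι →₀ ℕ // ∑ i, m i = k}) (s : Fin R → X),
        (Matrix.of fun i j => mono y (m j).1 (s i)).det ≠ 0 :=
    ⟨_, rfl, exists_minor fun m : {m : ι →₀ ℕ // ∑ i, m i = k} => mono (fun s : X => y s) m.1⟩
  have hRS := (hil_le_card (fun s : X => y s) k).trans (Fintype.card_subtype_le _)
  rw [hR0] at hRS ⊢
  clear hR0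
  rcases Nat.eq_zero_or_pos R with rfl | hR
  · rw [Nat.cast_zero, zero_mul]
    positivity
  let s : Fin R → S := fun i => s0 i
  let Γ := a.range
  let D : Equiv.Perm S → ℂ := fun g => (Matrix.of fun i j => mono y (m j).1 (g (s i))).det
  have hD : ∀ (σ : ℂ ≃ₐ[K] ℂ) g, σ (D g) = D (a σ * g) := fun σ g => by
    refine (detc_map (σ : ℂ →+* ℂ) y (fun j => (m j).1) fun i => g (s i)).trans ?_
    simp only [D, mono, RingHom.coe_coe, hy, Equiv.Perm.mul_apply]
  have hD0 : ∀ g : Γ, D g ≠ 0 := fun ⟨_, σ, hσ⟩ => by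
    have := hD σ 1
    rw [mul_one, hσ] at this
    rw [← this]
    exact (map_ne_zero σ).2 hΔ
  have hDi : ∀ g, IsIntegral ℤ (D g) := fun g =>
    IsIntegral.det fun i j => IsIntegral.prod _ fun l _ => (hi _ _).pow _
  have hzi : IsIntegral ℤ (∏ g : Γ, D g) := IsIntegral.prod _ fun g _ => hDi g
  have hzK : ∏ g : Γ, D g ∈ K := mem_of_fixed K (hzi.tower_top (A := ℚ)).isAlgebraic fun σ => by
    rw [map_prod]
    exact Fintype.prod_equiv (Equiv.mulLeft (⟨a σ, σ, rfl⟩ : Γ)) _ _ fun g => hD σ g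
  obtain ⟨n, hn0, hn1, hn2⟩ := exists_norm K hzK hzi (prod_ne_zero_iff.2 fun g _ => hD0 g)
    (B := ((R * B ^ k) ^ R) ^ Fintype.card Γ) fun φ => by
      rw [map_prod, norm_prod, ← card_univ, ← prod_const]
      refine prod_le_prod (fun _ _ => norm_nonneg _) fun g _ => ?_
      rw [detc_map φ y (fun j => (m j).1) fun i => (g : Equiv.Perm S) (s i)]
      exact detc_arch hB1 (hB φ) m _
  let U : ℕ → Γ → Finset (Fin R) := fun p g => univ.filter fun i => g • s i ∈ St p
  let e : ℕ → ℕ := fun p => ∑ g : Γ, ((U p g).card - h)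
  have hdvd : ∏ p ∈ PP, (p : ℤ) ^ e p ∣ n := by
    refine prod_dvd_of_coprime (fun p hp q hq hpq => ?_) fun p hp => ?_
    · exact IsCoprime.pow (Nat.isCoprime_iff_coprime.2
        ((Nat.coprime_primes (hPP p hp).1 (hPP q hq).1).2 hpq))
    · obtain ⟨w, hw, hwp, H⟩ := detc_small hi (hPP p hp).1.pos (hSt p hp)
      refine pow_dvd hw (hPP p hp).1 hwp hn0 ((hn2 w hw).trans ?_)
      rw [map_prod, ← prod_pow_eq_pow_sum]
      exact prod_le_prod (fun _ _ => w.nonneg _) fun g _ =>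
        H k R m _ (U p g) fun i hi => (mem_filter.1 hi).2
  have hle : P ^ ∑ p ∈ PP, e p ≤ |(n : ℝ)| := by
    have h1 := Int.le_of_dvd (abs_pos.2 hn0) ((dvd_abs _ _).2 hdvd)
    have h2 : ∏ p ∈ PP, (p : ℝ) ^ e p ≤ |(n : ℝ)| := by exact_mod_cast h1
    refine le_trans ?_ h2
    rw [← prod_pow_eq_pow_sum]
    exact prod_le_prod (fun _ _ => by positivity) fun p hp =>
      pow_le_pow_left₀ (by positivity) (hPP p hp).2 _
  have hG : (0 : ℝ) < Fintype.card Γ := by exact_mod_cast Fintype.card_pos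
  have hc : (Fintype.card Γ : ℝ) * (R * W) ≤
      ((∑ p ∈ PP, e p : ℕ) + PP.card * (Fintype.card Γ * h)) := by
    have h1 : ∀ i, Fintype.card Γ * W ≤
        ∑ p ∈ PP, ((univ.filter fun g : Γ => g • s i ∈ St p).card : ℝ) := fun i => by
      have := hW (s i) (s0 i).2
      unfold dens at this
      rwa [← sum_div, le_div_iff₀' hG] at this
    have h2 : ∀ p, ∑ i, (univ.filter fun g : Γ => g • s i ∈ St p).card ≤
        e p + Fintype.card Γ * h := fun p => by
      have h3 : ∑ i, (univ.filter fun g : Γ => g • s i ∈ St p).card = ∑ g : Γ, (U p g).card := by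
        simp only [U, card_filter]
        exact sum_comm
      rw [h3, ← card_univ, ← smul_eq_mul, ← sum_const, ← sum_add_distrib]
      exact sum_le_sum fun g _ => by omega
    have h4 : ∑ p ∈ PP, ∑ i, (univ.filter fun g : Γ => g • s i ∈ St p).card ≤
        ∑ p ∈ PP, e p + PP.card * (Fintype.card Γ * h) := by
      rw [← smul_eq_mul, ← sum_const, ← sum_add_distrib]
      exact sum_le_sum fun p _ => h2 p
    calc _ = ∑ _i : Fin R, (Fintype.card Γ : ℝ) * W := by simp; ring
      _ ≤ _ := sum_le_sum fun i _ => h1 i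
      _ = ((∑ p ∈ PP, ∑ i, (univ.filter fun g : Γ => g • s i ∈ St p).card : ℕ) : ℝ) := by
        rw [sum_comm]
        push_cast
        rfl
      _ ≤ _ := by exact_mod_cast h4
  have hR' : (0 : ℝ) < R := by exact_mod_cast hR
  have hlP := Real.log_pos hP
  have hlog := Real.log_le_log (by positivity) (hle.trans hn1)
  rw [Real.log_pow, Real.log_pow, Real.log_pow, Real.log_pow,
    Real.log_mul hR'.ne' (by positivity), Real.log_pow] at hlog
  have hRS' : Real.log R ≤ Real.log (Fintype.card S) :=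
    Real.log_le_log hR' (by exact_mod_cast hRS)
  generalize ((∑ p ∈ PP, e p : ℕ) : ℝ) = E at *
  generalize (Fintype.card Γ : ℝ) = G at *
  have h5 : E * Real.log P ≤ G * R * (W * Real.log P) / 2 := by
    have h6 : E * Real.log P ≤ Module.finrank ℚ K * (G * (R *
        (Real.log (Fintype.card S) + k * Real.log B))) := hlog.trans (by gcongr)
    have h8 := mul_le_mul_of_nonneg_left hk (mul_pos hG hR').le
    linarith
  have h9 : G * Real.log P * (R * W) ≤ G * Real.log P * (2 * h * PP.card) := by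
    have := mul_le_mul_of_nonneg_right hc hlP.le
    linarith
  exact le_of_mul_le_mul_left h9 (mul_pos hG hlP)

open Classical in
/-- Each row has the share `δ` at a fraction `ρ` of the primes. -/
theorem hilb2' [Fintype S] (K : IntermediateField ℚ ℂ) [FiniteDimensional ℚ K]
    (a : (ℂ ≃ₐ[K] ℂ) →* Equiv.Perm S) (y : S → ι → ℂ) (hy : ∀ σ s i, σ (y s i) = y (a σ s) i)
    (hi : ∀ s i, IsIntegral ℤ (y s i)) {B : ℝ} (hB1 : 1 ≤ B)
    (hB : ∀ (φ : ℂ →+* ℂ) s i, ‖φ (y s i)‖ ≤ B) (PP : Finset ℕ) (hne : PP.Nonempty) {P : ℝ}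
    (hP : 1 < P) (hPP : ∀ p ∈ PP, p.Prime ∧ P ≤ p) {h : ℕ} (St : ℕ → Set S)
    (hSt : ∀ p ∈ PP, FewRed y p h (St p)) (X : Finset S) {ρ δ : ℝ} (hδ : 0 ≤ δ)
    (hX : ∀ x ∈ X, ρ * PP.card ≤ (PP.filter fun p => δ ≤ dens a x (St p)).card) (k : ℕ)
    (hk : 2 * Module.finrank ℚ K * (Real.log (Fintype.card S) + k * Real.log B) ≤
      ρ * δ * PP.card * Real.log P) : hil (fun s : X => y s) k * (ρ * δ) ≤ 2 * h := by
  have h1 := hilb2 K a y hy hi hB1 hB PP hP hPP St hSt X (W := ρ * δ * PP.card) (fun x hx => by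
    calc ρ * δ * PP.card = ρ * PP.card * δ := by ring
      _ ≤ (PP.filter fun p => δ ≤ dens a x (St p)).card * δ :=
        mul_le_mul_of_nonneg_right (hX x hx) hδ
      _ ≤ ∑ p ∈ PP.filter fun p => δ ≤ dens a x (St p), dens a x (St p) := by
        rw [← nsmul_eq_mul]
        exact card_nsmul_le_sum _ _ _ fun p hp => (mem_filter.1 hp).2
      _ ≤ _ := sum_le_sum_of_subset_of_nonneg (filter_subset _ _) fun p _ _ => dens_nonneg _ _ _)
    k hk
  rw [← mul_assoc] at h1
  exact le_of_mul_le_mul_right h1 (Nat.cast_pos.2 hne.card_pos)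

end MG.Hb
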