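import Pool.Agent.Lib.MP_33b3f9_ag.M4.G.Det

/-! A lower bound for the Hilbert function by a Gram matrix. -/

set_option autoImplicit false

noncomputable section

namespace MG.Hb

open Finset Pool.Agent.M4.Det

/-- The trace is bounded by the rank and the Frobenius norm. -/
theorem trace_sq_le {S : Type} [Fintype S] (V : Submodule ℂ (S → ℂ)) (G : S → S → ℂ)
    (hG : ∀ t, (fun s => G s t) ∈ V) :
    ‖∑ s, G s s‖ ^ 2 ≤ Module.finrank ℂ V * ∑ s, ∑ t, ‖G s t‖ ^ 2 := by
  classical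
  let L := WithLp.linearEquiv 2 ℂ (S → ℂ)
  let V' : Submodule ℂ (EuclideanSpace ℂ S) := V.map L.symm.toLinearMap
  have hd : Module.finrank ℂ V' = Module.finrank ℂ V := LinearEquiv.finrank_map_eq _ _
  let b := stdOrthonormalBasis ℂ V'
  let c : S → V' := fun t => ⟨L.symm fun s => G s t, Submodule.mem_map_of_mem (hG t)⟩
  have h1 : ∀ s, G s s = ∑ r, b.repr (c s) r * (b r : EuclideanSpace ℂ S) s := fun s => by
    have := congrArg (fun v : V' => (v : EuclideanSpace ℂ S) s) (b.sum_repr (c s))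
    simp only [Submodule.coe_sum, Submodule.coe_smul, WithLp.ofLp_sum, WithLp.ofLp_smul,
      Finset.sum_apply, Pi.smul_apply, smul_eq_mul] at this
    exact this.symm
  have h2 : ∀ s, ∑ r, ‖b.repr (c s) r‖ ^ 2 = ∑ t, ‖G t s‖ ^ 2 := fun s => by
    rw [← EuclideanSpace.norm_sq_eq, b.repr.norm_map, Submodule.coe_norm,
      EuclideanSpace.norm_sq_eq]
    rfl
  have h3 : ∀ r, ∑ s, ‖(b r : EuclideanSpace ℂ S) s‖ ^ 2 = 1 := fun r => by
    rw [← EuclideanSpace.norm_sq_eq, ← Submodule.coe_norm, b.norm_eq_one, one_pow]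
  have h4 : ‖∑ s, G s s‖ ≤ ∑ x : S × Fin (Module.finrank ℂ V'),
      ‖(b x.2 : EuclideanSpace ℂ S) x.1‖ * ‖b.repr (c x.1) x.2‖ := by
    rw [Fintype.sum_prod_type]
    refine (norm_sum_le _ _).trans (sum_le_sum fun s _ => ?_)
    rw [h1]
    exact (norm_sum_le _ _).trans (sum_le_sum fun r _ => by rw [norm_mul, mul_comm])
  refine ((pow_le_pow_left₀ (norm_nonneg _) h4 2).trans (sum_mul_sq_le_sq_mul_sq _ _ _)).trans_eq ?_
  rw [Fintype.sum_prod_type_right, Fintype.sum_prod_type]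
  simp only [h2, h3]
  rw [sum_const, card_univ, Fintype.card_fin, nsmul_eq_mul, mul_one, hd, sum_comm]

variable {S ι : Type} [Fintype ι]

/-- The hermitian product. -/
def ip (u v : ι → ℂ) : ℂ := ∑ i, u i * (starRingEnd ℂ) (v i)

/-- The square of the norm. -/
def nsq (u : ι → ℂ) : ℝ := ∑ i, ‖u i‖ ^ 2

/-- The square of the cosine of the angle. -/
def cs (u v : ι → ℂ) : ℝ := ‖ip u v‖ ^ 2 / (nsq u * nsq v)

theorem ip_self (u : ι → ℂ) : ip u u = nsq u := by
  simp only [ip, nsq, Complex.mul_conj', Complex.ofReal_sum, Complex.ofReal_pow]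

theorem nsq_nonneg (u : ι → ℂ) : 0 ≤ nsq u := sum_nonneg fun _ _ => sq_nonneg _

theorem nsq_pos {u : ι → ℂ} (h : u ≠ 0) : 0 < nsq u := by
  obtain ⟨i, hi⟩ := Function.ne_iff.1 h
  exact sum_pos' (fun _ _ => sq_nonneg _) ⟨i, mem_univ _, pow_pos (norm_pos_iff.2 hi) 2⟩

theorem cs_nonneg (u v : ι → ℂ) : 0 ≤ cs u v :=
  div_nonneg (sq_nonneg _) (mul_nonneg (nsq_nonneg u) (nsq_nonneg v))

theorem cs_le_one (u v : ι → ℂ) : cs u v ≤ 1 := by
  refine div_le_one_of_le₀ ?_ (mul_nonneg (nsq_nonneg u) (nsq_nonneg v))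
  refine (pow_le_pow_left₀ (norm_nonneg _) ((norm_sum_le _ _).trans_eq ?_) 2).trans
    (sum_mul_sq_le_sq_mul_sq univ (fun i => ‖u i‖) fun i => ‖v i‖)
  simp only [norm_mul, Complex.norm_conj]

theorem ip_pow_mem (y : S → ι → ℂ) (v : ι → ℂ) (k : ℕ) : (fun s => ip (y s) v ^ k) ∈
    Submodule.span ℂ (Set.range fun m : {m : ι →₀ ℕ // ∑ i, m i = k} => mono y m.1) := by
  classical
  induction k with
  | zero => exact Submodule.subset_span ⟨⟨0, by simp⟩, funext fun s => by simp [mono]⟩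
  | succ k ih =>
    have e : (fun s => ip (y s) v ^ (k + 1)) =
        ∑ i, (starRingEnd ℂ) (v i) • ((fun s => y s i) * fun s => ip (y s) v ^ k) := by
      funext s
      simp only [Finset.sum_apply, Pi.smul_apply, Pi.mul_apply, smul_eq_mul, pow_succ']
      rw [ip, sum_mul]
      exact sum_congr rfl fun i _ => by ring
    rw [e]
    refine Submodule.sum_mem _ fun i _ => Submodule.smul_mem _ _ ?_
    generalize (fun s => ip (y s) v ^ k) = f at ih
    induction ih using Submodule.span_induction with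
    | mem f hf =>
      obtain ⟨m, rfl⟩ := hf
      refine Submodule.subset_span ⟨⟨m.1 + Finsupp.single i 1, ?_⟩, funext fun s => ?_⟩
      · simp [sum_add_distrib, m.2, Finsupp.single_apply]
      · simp only [mono, Finsupp.add_apply, pow_add, prod_mul_distrib, Pi.mul_apply]
        simp [Finsupp.single_apply, pow_ite, mul_comm]
    | zero => simp
    | add f g _ _ hf hg =>
      rw [mul_add]
      exact add_mem hf hg
    | smul c f _ hf =>
      rw [mul_smul_comm]
      exact Submodule.smul_mem _ _ hf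

theorem rank_le [Fintype S] (y : S → ι → ℂ) (hy : ∀ s, y s ≠ 0) (k : ℕ) :
    (Fintype.card S : ℝ) ^ 2 ≤ hil y k * ∑ s, ∑ t, cs (y s) (y t) ^ k := by
  let c : S → ℝ := fun s => (√(nsq (y s)))⁻¹
  have hc : ∀ s, 0 < c s := fun s => inv_pos.2 (Real.sqrt_pos.2 (nsq_pos (hy s)))
  have hc2 : ∀ s, c s ^ 2 = (nsq (y s))⁻¹ := fun s => by
    rw [inv_pow, Real.sq_sqrt (nsq_nonneg _)]
  have h1 : ∀ s t, ip ((c s : ℂ) • y s) ((c t : ℂ) • y t) = (c s * c t : ℝ) * ip (y s) (y t) :=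
    fun s t => by
      simp only [ip, Pi.smul_apply, smul_eq_mul, map_mul, Complex.conj_ofReal, mul_sum,
        Complex.ofReal_mul]
      exact sum_congr rfl fun i _ => by ring
  have h2 := trace_sq_le _ (fun s t => ip ((c s : ℂ) • y s) ((c t : ℂ) • y t) ^ k)
    fun t => ip_pow_mem (fun s => (c s : ℂ) • y s) _ k
  have h3 : ∀ s, ip ((c s : ℂ) • y s) ((c s : ℂ) • y s) = 1 := fun s => by
    rw [h1, ip_self, ← sq, hc2, ← Complex.ofReal_mul, inv_mul_cancel₀ (nsq_pos (hy s)).ne',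
      Complex.ofReal_one]
  have h4 : ∀ s t, ‖ip ((c s : ℂ) • y s) ((c t : ℂ) • y t) ^ k‖ ^ 2 = cs (y s) (y t) ^ k :=
    fun s t => by
      rw [norm_pow, ← pow_mul, mul_comm k, pow_mul, h1, norm_mul, Complex.norm_real, mul_pow,
        Real.norm_eq_abs, sq_abs, mul_pow (c s), hc2, hc2, cs, div_eq_inv_mul, mul_inv]
  simp only [h3, h4, one_pow, sum_const, card_univ, nsmul_eq_mul, mul_one,
    Complex.norm_natCast] at h2
  rw [← M4.G.hil_smul (fun s => (c s : ℂ)) (fun s => Complex.ofReal_ne_zero.2 (hc s).ne') y k]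
  exact h2

open Classical in
/-- Few close partners give a large Hilbert function. -/
theorem card_le_hil [Fintype S] (y : S → ι → ℂ) (hy : ∀ s, y s ≠ 0) (k : ℕ) {θ C : ℝ}
    (hθ : 0 ≤ θ) (hC : ∀ s, ((univ.filter fun t => θ < cs (y s) (y t)).card : ℝ) ≤ C)
    (hk : Fintype.card S * θ ^ k ≤ 1) : (Fintype.card S : ℝ) ≤ hil y k * (C + 1) := by
  rcases Nat.eq_zero_or_pos (Fintype.card S) with h0 | h0
  · have : IsEmpty S := Fintype.card_eq_zero_iff.1 h0
    have h1 := hil_le_card y k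
    rw [h0, Nat.le_zero] at h1
    simp [h1]
  have h1 : ∀ s, ∑ t, cs (y s) (y t) ^ k ≤ C + 1 := fun s => by
    have h2 : ∀ t, cs (y s) (y t) ^ k ≤ (if θ < cs (y s) (y t) then 1 else 0) + θ ^ k := fun t => by
      split_ifs with h
      · exact (pow_le_one₀ (cs_nonneg _ _) (cs_le_one _ _)).trans
          (le_add_of_nonneg_right (pow_nonneg hθ k))
      · rw [zero_add]
        exact pow_le_pow_left₀ (cs_nonneg _ _) (not_lt.1 h) k
    refine (sum_le_sum fun t _ => h2 t).trans ?_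
    rw [sum_add_distrib, sum_boole, sum_const, card_univ, nsmul_eq_mul]
    exact add_le_add (hC s) hk
  have h2 := (rank_le y hy k).trans
    (mul_le_mul_of_nonneg_left (sum_le_sum fun s _ => h1 s) (Nat.cast_nonneg _))
  rw [sum_const, card_univ, nsmul_eq_mul, sq, mul_left_comm] at h2
  exact le_of_mul_le_mul_left h2 (Nat.cast_pos.2 h0)

end MG.Hb
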